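import Pool.Agent.H7.KR.Stmts

/-!
# Row ASM of the board `kr` (MP_fd41b2_co)
-/

set_option autoImplicit false

open Finset

namespace Pool.KR

open Pool.Agent.H23.KT Pool.Agent.H46.KW Pool.KQ

/-- Increments of `bal`. -/
theorem asm_inc (h3 : NBRStmt) (p a N : ℕ) (ha : 1 ≤ a) (hN : (p + 2) * a ≤ N) (j : ℕ)
    (hj : N + j ≤ (p + 2) * (2 * a + 1)) :
    (a : ℝ) * ((bal (p + 2) (N + j) : ℝ) - bal (p + 2) N) ≤ j * (3 * (a : ℝ)) ^ (p + 2) := by
  induction j with
  | zero => simp
  | succ j ih =>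
    have h := ih (by omega)
    have h4 := h3.2.2.2.1 p a (N + j) (by omega)
    have h5 := h3.2.2.2.2 p a (N + j) ha (by omega)
    have e1 : N + (j + 1) = N + j + 1 := by omega
    rw [e1]
    push_cast
    nlinarith

/-- Few vertices of a part are adjacent to a vertex of `U'`. -/
theorem asm_few {V : Type} [DecidableEq V] (G : SimpleGraph V) (X U' : Finset V) (d : ℝ)
    (h : ∀ z ∈ U', ((nb G X z).card : ℝ) ≤ d) (T : Finset V)
    (hT : ∀ u ∈ T, u ∈ X ∧ ∃ z ∈ U', G.Adj u z) : (T.card : ℝ) ≤ U'.card * d := by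
  have h1 : T ⊆ U'.biUnion (fun z => nb G X z) := by
    intro u hu
    obtain ⟨hX, z, hz, hadj⟩ := hT u hu
    rw [mem_biUnion]
    exact ⟨z, hz, by rw [mem_nb]; exact ⟨hX, hadj.symm⟩⟩
  have h2 : T.card ≤ ∑ z ∈ U', (nb G X z).card := (card_le_card h1).trans card_biUnion_le
  calc (T.card : ℝ) ≤ ((∑ z ∈ U', (nb G X z).card : ℕ) : ℝ) := by exact_mod_cast h2
    _ = ∑ z ∈ U', ((nb G X z).card : ℝ) := by push_cast; rfl
    _ ≤ ∑ _z ∈ U', d := sum_le_sum h
    _ = U'.card * d := by rw [sum_const, nsmul_eq_mul]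

theorem asm (h1 : EDGStmt) (h2 : CDGStmt) (h3 : NBRStmt) : ASMStmt := by
  intro p C ε hC hε
  obtain ⟨aE, hE⟩ := h1 p
  obtain ⟨aC, hCD⟩ := h2 p C
  obtain ⟨C', hC'⟩ : ∃ C' : ℕ, C ≤ (C' : ℝ) := ⟨⌈C⌉₊, Nat.le_ceil C⟩
  have hC'0 : (0 : ℝ) < C' := lt_of_lt_of_le hC hC'
  have he1 : 0 < e1 p := by
    unfold e1
    positivity
  refine ⟨min (e1 p / 8) (ε / (C * C' * 3 ^ (p + 2))), lt_min (by positivity) (by positivity),
    max (max aE aC) (C' + 1), ?_⟩
  intro a ha V _ _ G hG v e P U hS he0 hee i U' hU' hnb hk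
  have haE : aE ≤ a := le_trans (le_trans (le_max_left _ _) (le_max_left _ _)) ha
  have haC : aC ≤ a := le_trans (le_trans (le_max_right _ _) (le_max_left _ _)) ha
  have haC' : C' + 1 ≤ a := le_trans (le_max_right _ _) ha
  have ha1 : 1 ≤ a := by omega
  obtain ⟨c1, c2, c3⟩ := hCD a haC G e (nb G univ v) P U hS he0 hee (hG.deg v) i
  have hUC : (U'.card : ℝ) ≤ C :=
    le_trans (by exact_mod_cast card_le_card hU') hS.cU
  have hUC' : U'.card ≤ C' := by exact_mod_cast hUC.trans hC'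
  have hUU : U'.card ≤ U.card := card_le_card hU'
  have hdis : Disjoint (P i) U' := (hS.disU i).mono_right hU'
  obtain ⟨N, hN⟩ : ∃ N : ℕ, N + ((P i).card + U'.card) = (p + 3) * a + (p + 2) :=
    ⟨(p + 3) * a + (p + 2) - ((P i).card + U'.card), by
      apply Nat.sub_add_cancel
      nlinarith⟩
  have hND : (p + 2) * (a + 1) ≤ N := by nlinarith
  have hN2 : (p + 2) * a ≤ N := by nlinarith
  have hmemW : ∀ u ∈ P i ∪ U', u ∈ nb G univ v := by
    intro u hu
    rw [hS.cov]
    rcases mem_union.1 hu with h | h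
    · exact Or.inr ⟨i, h⟩
    · exact Or.inl (hU' h)
  have hedge : ∀ u ∈ P i ∪ U', ∀ n : ℕ, (co G v u).card ≤ n →
      (co G v u).card + (P i).card ≤ (p + 3) * a + (p + 2) → N ≤ n →
      ES G p a v u (co G v u) ≤ a * (bal (p + 2) n : ℝ) := by
    intro u hu n hn hle hNn
    have h4 := hE a haE G hG v u (hmemW u hu) (c2 _ hle)
    refine h4.trans ?_
    have h5 : bal (p + 2) (max (co G v u).card ((p + 2) * (a + 1))) ≤ bal (p + 2) n :=
      bal_mono (by omega) (max_le hn (hND.trans hNn))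
    have h6 : (bal (p + 2) (max (co G v u).card ((p + 2) * (a + 1))) : ℝ) ≤ bal (p + 2) n := by
      exact_mod_cast h5
    exact mul_le_mul_of_nonneg_left h6 (by positivity)
  classical
  obtain ⟨T, hTdef⟩ : ∃ T : Finset V, T = (P i).filter (fun u => ∃ z ∈ U', G.Adj u z) := ⟨_, rfl⟩
  have hpt : ∀ u ∈ P i ∪ U', ES G p a v u (co G v u) ≤
      a * (bal (p + 2) N : ℝ) +
        (if u ∈ T then (a : ℝ) * ((bal (p + 2) (N + C') : ℝ) - bal (p + 2) N) else 0) := by
    intro u hu
    by_cases hT : u ∈ T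
    · rw [if_pos hT]
      have hPi : u ∈ P i := by
        rw [hTdef] at hT
        exact (mem_filter.1 hT).1
      have h4 := c1 u hPi
      have h5 : (co G v u).card + (P i).card + (non G U u).card ≤ (p + 3) * a + (p + 2) := h4
      have h6 := hedge u hu (N + C') (by omega) (by omega) (by omega)
      linarith
    · rw [if_neg hT, add_zero]
      rcases mem_union.1 hu with hPi | hz
      · have h5 : (co G v u).card + (P i).card + (non G U u).card ≤ (p + 3) * a + (p + 2) :=
          c1 u hPi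
        have h6 : U' ⊆ non G U u := by
          intro z hz
          unfold non
          rw [mem_filter]
          refine ⟨hU' hz, fun hadj => hT ?_⟩
          rw [hTdef, mem_filter]
          exact ⟨hPi, z, hz, hadj⟩
        have h7 := card_le_card h6
        exact hedge u hu N (by omega) (by omega) le_rfl
      · have h5 : (co G v u).card + (P i).card + U.card ≤ (p + 3) * a + (p + 2) := by
          refine c3 u (hU' hz) (le_trans (hnb u hz) ?_)
          exact mul_le_mul_of_nonneg_right (min_le_left _ _) (by positivity)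
        exact hedge u hu N (by omega) (by omega) le_rfl
  have hTc : (T.card : ℝ) ≤ U'.card * (min (e1 p / 8) (ε / (C * C' * 3 ^ (p + 2))) * a) := by
    apply asm_few G (P i) U' _ hnb T
    intro u hu
    rw [hTdef, mem_filter] at hu
    exact hu
  have hTc2 : (T.card : ℝ) ≤ ε / (C' * 3 ^ (p + 2)) * a := by
    refine hTc.trans ?_
    have h4 : min (e1 p / 8) (ε / (C * C' * 3 ^ (p + 2))) * a ≤
        ε / (C * C' * 3 ^ (p + 2)) * a :=
      mul_le_mul_of_nonneg_right (min_le_right _ _) (by positivity)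
    calc (U'.card : ℝ) * (min (e1 p / 8) (ε / (C * C' * 3 ^ (p + 2))) * a)
        ≤ C * (ε / (C * C' * 3 ^ (p + 2)) * a) := by
          apply mul_le_mul hUC h4 _ hC.le
          exact mul_nonneg (lt_min (by positivity) (by positivity)).le (by positivity)
      _ = ε / (C' * 3 ^ (p + 2)) * a := by
          field_simp
  have hinc : (a : ℝ) * ((bal (p + 2) (N + C') : ℝ) - bal (p + 2) N) ≤
      C' * (3 * (a : ℝ)) ^ (p + 2) := by
    apply asm_inc h3 p a N ha1 hN2 C'
    have : (p + 2) * (2 * a + 1) = (p + 3) * a + (p + 2) + (p + 1) * a := by ring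
    rw [this]
    nlinarith
  have hinc0 : 0 ≤ (a : ℝ) * ((bal (p + 2) (N + C') : ℝ) - bal (p + 2) N) := by
    have h4 : bal (p + 2) N ≤ bal (p + 2) (N + C') := bal_mono (by omega) (by omega)
    have h5 : (bal (p + 2) N : ℝ) ≤ bal (p + 2) (N + C') := by exact_mod_cast h4
    exact mul_nonneg (by positivity) (by linarith)
  have hsum : ∑ u ∈ P i ∪ U', ES G p a v u (co G v u) ≤
      ((P i).card + U'.card) * (a * (bal (p + 2) N : ℝ)) +
        T.card * ((a : ℝ) * ((bal (p + 2) (N + C') : ℝ) - bal (p + 2) N)) := by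
    refine (sum_le_sum hpt).trans ?_
    rw [sum_add_distrib, sum_const, nsmul_eq_mul, card_union_of_disjoint hdis, sum_ite_mem,
      sum_const, nsmul_eq_mul]
    push_cast
    have h4 : (((P i ∪ U') ∩ T).card : ℝ) ≤ T.card := by
      exact_mod_cast card_le_card inter_subset_right
    have h5 := mul_le_mul_of_nonneg_right h4 hinc0
    linarith
  have hM : ((P i).card + U'.card) * (bal (p + 2) N : ℝ) ≤
      bal (p + 3) ((p + 3) * a + (p + 2)) := by
    have h4 := h3.2.2.1 p a ((P i).card + U'.card) N hN.le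
    exact_mod_cast h4
  have hM2 : (a : ℝ) ^ (p + 3) ≤ bal (p + 3) ((p + 3) * a + (p + 2)) := by
    rw [h3.2.1 p a]
    push_cast
    rw [pow_succ']
    apply mul_le_mul_of_nonneg_left _ (by positivity)
    apply pow_le_pow_left₀ (by positivity)
    linarith
  have hT3 : (T.card : ℝ) * ((a : ℝ) * ((bal (p + 2) (N + C') : ℝ) - bal (p + 2) N)) ≤
      ε * (a : ℝ) ^ (p + 3) := by
    calc (T.card : ℝ) * ((a : ℝ) * ((bal (p + 2) (N + C') : ℝ) - bal (p + 2) N))
        ≤ (ε / (C' * 3 ^ (p + 2)) * a) * (C' * (3 * (a : ℝ)) ^ (p + 2)) :=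
          mul_le_mul hTc2 hinc hinc0 (by positivity)
      _ = ε * (a : ℝ) ^ (p + 3) := by
          rw [mul_pow]
          field_simp
          ring
  have hfin : ((P i).card + U'.card) * (a * (bal (p + 2) N : ℝ)) ≤
      a * (bal (p + 3) ((p + 3) * a + (p + 2)) : ℝ) := by
    have := mul_le_mul_of_nonneg_left hM (show (0 : ℝ) ≤ a by positivity)
    nlinarith
  have hfin2 : ε * (a : ℝ) ^ (p + 3) ≤ ε * (bal (p + 3) ((p + 3) * a + (p + 2)) : ℝ) :=
    mul_le_mul_of_nonneg_left hM2 hε.le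
  linarith

end Pool.KR
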